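import Mathlib
import Pool.Agent.N44.NS.Defs

/-!
# The Leavitt algebra of type (1,2) over a finite field with 257 elements

Step `LEAV` of the project NS of helper44: existence of an algebra over a field with at least 256
elements which is generated by four elements with the Leavitt relations.
-/

set_option autoImplicit false

namespace Pool.Agent.N67.NS

open Pool.Agent.N44.NS

section ops

variable (K : Type) [Field K]

/-- `f ↦ (n ↦ f (2 n))` -/
def Y1 : Module.End K (ℕ → K) where
  toFun f := fun n => f (2 * n)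
  map_add' _ _ := rfl
  map_smul' _ _ := rfl

/-- `f ↦ (n ↦ f (2 n + 1))` -/
def Y2 : Module.End K (ℕ → K) where
  toFun f := fun n => f (2 * n + 1)
  map_add' _ _ := rfl
  map_smul' _ _ := rfl

/-- `f` on the even numbers -/
def X1 : Module.End K (ℕ → K) where
  toFun f := fun n => if n % 2 = 0 then f (n / 2) else 0
  map_add' f g := by
    funext n
    by_cases h : n % 2 = 0 <;> simp [h]
  map_smul' c f := by
    funext n
    by_cases h : n % 2 = 0 <;> simp [h]

/-- `f` on the odd numbers -/
def X2 : Module.End K (ℕ → K) where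
  toFun f := fun n => if n % 2 = 1 then f (n / 2) else 0
  map_add' f g := by
    funext n
    by_cases h : n % 2 = 1 <;> simp [h]
  map_smul' c f := by
    funext n
    by_cases h : n % 2 = 1 <;> simp [h]

theorem Y1X1 : Y1 K * X1 K = 1 := by
  apply LinearMap.ext
  intro f
  funext n
  have h : (2 * n) % 2 = 0 := by omega
  have h2 : (2 * n) / 2 = n := by omega
  simp [Y1, X1, h2]

theorem Y2X2 : Y2 K * X2 K = 1 := by
  apply LinearMap.ext
  intro f
  funext n
  have h : (2 * n + 1) % 2 = 1 := by omega
  have h2 : (2 * n + 1) / 2 = n := by omega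
  simp [Y2, X2, h, h2]

theorem Y1X2 : Y1 K * X2 K = 0 := by
  apply LinearMap.ext
  intro f
  funext n
  have h : (2 * n) % 2 ≠ 1 := by omega
  simp [Y1, X2]

theorem Y2X1 : Y2 K * X1 K = 0 := by
  apply LinearMap.ext
  intro f
  funext n
  have h : (2 * n + 1) % 2 ≠ 0 := by omega
  simp [Y2, X1]

theorem sum_one : X1 K * Y1 K + X2 K * Y2 K = 1 := by
  apply LinearMap.ext
  intro f
  funext n
  rcases Nat.mod_two_eq_zero_or_one n with h | h
  · have h1 : 2 * (n / 2) = n := by omega
    simp [X1, X2, Y1, Y2, h, h1]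
  · have h1 : 2 * (n / 2) + 1 = n := by omega
    simp [X1, X2, Y1, Y2, h, h1]

end ops

instance fact257 : Fact (Nat.Prime 257) := ⟨by norm_num⟩

/-- the field with 257 elements -/
abbrev F : Type := ZMod 257

/-- the algebra generated by the four operators -/
abbrev A : Subalgebra F (Module.End F (ℕ → F)) :=
  Algebra.adjoin F {X1 F, X2 F, Y1 F, Y2 F}

theorem leav : ∃ (K : Type) (_ : Field K) (_ : Fintype K) (A : Type) (_ : Ring A) (_ : Algebra K A)
    (_ : Nontrivial A) (x1 x2 y1 y2 : A), 256 ≤ Fintype.card K ∧ Leav x1 x2 y1 y2 ∧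
      Algebra.adjoin K (Set.range ![x1, x2, y1, y2]) = ⊤ := by
  have h1 : X1 F ∈ A := Algebra.subset_adjoin (by simp)
  have h2 : X2 F ∈ A := Algebra.subset_adjoin (by simp)
  have h3 : Y1 F ∈ A := Algebra.subset_adjoin (by simp)
  have h4 : Y2 F ∈ A := Algebra.subset_adjoin (by simp)
  refine ⟨F, inferInstance, inferInstance, A, inferInstance, inferInstance, inferInstance,
    ⟨X1 F, h1⟩, ⟨X2 F, h2⟩, ⟨Y1 F, h3⟩, ⟨Y2 F, h4⟩, ?_, ?_, ?_⟩
  · rw [ZMod.card]
    norm_num
  · exact {
      r11 := Subtype.ext (Y1X1 F)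
      r22 := Subtype.ext (Y2X2 F)
      r12 := Subtype.ext (Y1X2 F)
      r21 := Subtype.ext (Y2X1 F)
      rs := Subtype.ext (sum_one F) }
  · apply Subalgebra.map_injective (f := A.val) Subtype.val_injective
    rw [AlgHom.map_adjoin, ← Set.range_comp, Algebra.map_top, Subalgebra.range_val]
    congr 1
    ext z
    simp only [Set.mem_range, Set.mem_insert_iff, Set.mem_singleton_iff, Function.comp_apply]
    constructor
    · rintro ⟨i, rfl⟩
      fin_cases i <;> simp
    · rintro (h | h | h | h)
      · exact ⟨0, h.symm⟩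
      · exact ⟨1, h.symm⟩
      · exact ⟨2, h.symm⟩
      · exact ⟨3, h.symm⟩

end Pool.Agent.N67.NS
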